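import Mathlib

/-!
# Elliptic surfaces `y ^ 2 = x (x ^ 2 + A(t) x + B(t))` and Galois representations: definitions

Here `K` is a number field and `L` is an algebraic closure of `K`; the Galois group is the group of
the automorphisms of `L` over `K`.
-/

set_option autoImplicit false

namespace Pool.Agent.EllipticSurface

open NumberField Polynomial

variable {K L : Type} [Field K] [Field L] [Algebra K L]

/-- The zeros in the projective line over `L` of `P`, which is regarded as a form of degree `m` in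
two variables. The point at infinity is `none`; it is a zero if the coefficient of `t ^ m`
vanishes. -/
def zeros (L : Type) [Field L] [Algebra K L] (m : ℕ) (P : (𝓞 K)[X]) : Set (Option L) :=
  {z | z.elim (P.coeff m = 0) fun β => aeval β P = 0}

/-- The set `Z` has two elements, or it has an even number of elements, at least eight, and every
cyclic permutation of three points of `Z` is induced by an element of the Galois group of `K` that
fixes all other points of `Z` and all points of `Z'`. -/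
def Large (K : Type) [Field K] [Algebra K L] (Z Z' : Set (Option L)) : Prop :=
  Z.ncard = 2 ∨ (8 ≤ Z.ncard ∧ Even Z.ncard ∧
    ∀ a ∈ Z, ∀ b ∈ Z, ∀ c ∈ Z, a ≠ b → b ≠ c → c ≠ a → ∃ σ : L ≃ₐ[K] L,
      a.map σ = b ∧ b.map σ = c ∧ c.map σ = a ∧ (∀ z ∈ Z, z ≠ a → z ≠ b → z ≠ c → z.map σ = z) ∧
        ∀ z ∈ Z', z.map σ = z)

/-- The traces of the representation `ρ` of the Galois group count the points of the elliptic surface
`y ^ 2 = x (x ^ 2 + A(t) x + B(t))`: for all prime ideals `𝔓` of the ring of algebraic integers above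
almost all primes `p`, all finite fields `F` that contain the residue field of `K` at `𝔓` and all
elements `σ` of the Galois group that induce `x ↦ x ^ |F|` modulo `𝔓`, `|F|` times the trace of
`ρ(σ⁻¹)` is the number of the points `(t, x, y)` in `F ^ 3` plus the number of the points `(x, y)` in
`F ^ 2` of the fibre at `t = ∞` minus `|F| ^ 2 + |F|`, where the values of `A` and `B` at `t = ∞` are
the coefficients of `t ^ (2 n)` and `t ^ (4 n)`. -/
def CountsPoints (n : ℕ) (A B : (𝓞 K)[X]) {k : Type} [Field k] {N : ℕ}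
    (ρ : (L ≃ₐ[K] L) →* Matrix (Fin N) (Fin N) k) : Prop :=
  ∃ C : Finset ℕ, ∀ p : ℕ, p.Prime → p ∉ C → ∀ 𝔓 : Ideal (𝓞 L), 𝔓.IsPrime →
    (p : 𝓞 L) ∈ 𝔓 → ∀ (F : Type) [Field F] [Fintype F] (φ : 𝓞 K →+* F),
      (∀ x : 𝓞 K, φ x = 0 ↔ algebraMap (𝓞 K) (𝓞 L) x ∈ 𝔓) →
      ∀ σ : L ≃ₐ[K] L, (∀ x y : 𝓞 L, (y : L) = σ x → y - x ^ Fintype.card F ∈ 𝔓) →
        (Fintype.card F : k) * (ρ σ⁻¹).trace =
          (Nat.card {P : F × F × F // P.2.2 ^ 2 =
            P.2.1 * (P.2.1 ^ 2 + A.eval₂ φ P.1 * P.2.1 + B.eval₂ φ P.1)} : k) +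
          (Nat.card {P : F × F // P.2 ^ 2 =
            P.1 * (P.1 ^ 2 + φ (A.coeff (2 * n)) * P.1 + φ (B.coeff (4 * n)))} : k) -
          ((Fintype.card F : k) ^ 2 + (Fintype.card F : k))

/-- No open subgroup `H` acts trivially on a nonzero subquotient `W₂ / W₁` of `ρ`. -/
def NoTateClasses {G k : Type} [Group G] [TopologicalSpace G] [Field k] {d : ℕ}
    (ρ : G →* Matrix (Fin d) (Fin d) k) : Prop :=
  ∀ H : Subgroup G, IsOpen (H : Set G) → ∀ W₁ W₂ : Submodule k (Fin d → k), W₁ ≤ W₂ →
    (∀ σ ∈ H, ∀ x ∈ W₂, (ρ σ).mulVec x - x ∈ W₁) → W₁ = W₂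

end Pool.Agent.EllipticSurface
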