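import Pool.Agent.Lib_helper11.SD.Main
import Pool.Agent.Lib_helper46.OS.MN
import Pool.Agent.Lib_helper46.ES.Defs

/-!
# Elliptic surfaces with a section of order two: the theorem over the definitions of `ES/Defs`
-/

set_option autoImplicit false

namespace Pool.Agent.EllipticSurface

open NumberField Polynomial Pool.Agent.TT

section count

variable {F : Type} [Field F] [Fintype F]

open Classical in
theorem es_sqrts (hF : ringChar F ≠ 2) (a : F) :
    ∑ y : F, (if y ^ 2 = a then 1 else 0 : ℤ) = quadraticChar F a + 1 := by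
  rw [← quadraticChar_card_sqrts hF a, ← Finset.sum_filter, Finset.sum_const, nsmul_eq_mul, mul_one]
  congr 2
  ext y
  simp

open Classical in
theorem es_curve (hF : ringChar F ≠ 2) (g : F → F) :
    (Nat.card {P : F × F // P.2 ^ 2 = g P.1} : ℤ) =
      ∑ x : F, quadraticChar F (g x) + Fintype.card F := by
  rw [Nat.card_eq_fintype_card, Fintype.card_subtype, Finset.card_filter]
  push_cast
  rw [Fintype.sum_prod_type]
  simp only [es_sqrts hF, Finset.sum_add_distrib, Finset.sum_const, Finset.card_univ, nsmul_eq_mul,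
    mul_one]

open Classical in
theorem es_surface (hF : ringChar F ≠ 2) (g : F → F → F) :
    (Nat.card {P : F × F × F // P.2.2 ^ 2 = g P.1 P.2.1} : ℤ) =
      ∑ t : F, ∑ x : F, quadraticChar F (g t x) + (Fintype.card F : ℤ) ^ 2 := by
  rw [Nat.card_eq_fintype_card, Fintype.card_subtype, Finset.card_filter]
  push_cast
  rw [Fintype.sum_prod_type]
  simp only [Fintype.sum_prod_type, es_sqrts hF, Finset.sum_add_distrib, Finset.sum_const,
    Finset.card_univ, nsmul_eq_mul, mul_one]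
  ring

end count

theorem es_traces {K : Type} [Field K] [NumberField K] [Algebra K Qbar] {n : ℕ}
    {A B : (𝓞 K)[X]} {k : Type} [Field k] {N : ℕ}
    {ρ : (Qbar ≃ₐ[K] Qbar) →* Matrix (Fin N) (Fin N) k} (hρ : CountsPoints n A B ρ) :
    Pool.Agent.TD.HasTraces (fun σ => (ρ σ).trace) n A B := by
  classical
  obtain ⟨C, hC⟩ := hρ
  refine ⟨insert 2 C, fun p hp hpC 𝔓 h𝔓 hp𝔓 F _ _ φ hφ σ hσ => ?_⟩
  have hp2 : p ≠ 2 := fun h => hpC (h ▸ Finset.mem_insert_self 2 C)
  have hpC' : p ∉ C := fun h => hpC (Finset.mem_insert_of_mem h)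
  have h1 := hC p hp hpC' 𝔓 h𝔓 hp𝔓 F φ hφ σ hσ
  have hpF : (p : F) = 0 := by
    have h2 : φ (p : 𝓞 K) = 0 := by
      rw [hφ, map_natCast]
      exact hp𝔓
    rwa [map_natCast] at h2
  have hch : ringChar F = p := by
    have h3 : ringChar F ∣ p := (ringChar.spec F p).1 hpF
    rcases (Nat.dvd_prime hp).1 h3 with h4 | h4
    · exact absurd h4 (CharP.ringChar_ne_one)
    · exact h4
  have h5 : ringChar F ≠ 2 := by rw [hch]; exact hp2
  have h6 := es_surface h5 fun t x => x * (x ^ 2 + A.eval₂ φ t * x + B.eval₂ φ t)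
  have h7 := es_curve h5 fun x => x * (x ^ 2 + φ (A.coeff (2 * n)) * x + φ (B.coeff (4 * n)))
  have h8 := congrArg (Int.cast : ℤ → k) h6
  have h9 := congrArg (Int.cast : ℤ → k) h7
  rw [Int.cast_natCast] at h8 h9
  beta_reduce
  rw [h1, h8, h9, Pool.Agent.TD.charSum]
  push_cast
  ring

theorem es_main {K : Type} [Field K] [NumberField K] [Algebra K Qbar] {n : ℕ}
    (A B : (𝓞 K)[X]) (hA : A.natDegree ≤ 2 * n)
    (hB : Large K (zeros Qbar (4 * n) B) (zeros Qbar (4 * n) (A ^ 2 - 4 * B)))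
    (hD : Large K (zeros Qbar (4 * n) (A ^ 2 - 4 * B)) (zeros Qbar (4 * n) B)) {N : ℕ}
    (hN : N + 4 = (zeros Qbar (4 * n) B).ncard + (zeros Qbar (4 * n) (A ^ 2 - 4 * B)).ncard)
    (ρ : (Qbar ≃ₐ[K] Qbar) →* Matrix (Fin N) (Fin N) ℚ_[2])
    (hρ : Continuous ρ) (hρt : CountsPoints n A B ρ)
    (J : Matrix (Fin N) (Fin N) ℚ_[2]) (hJ : J.transpose = J)
    (hJ0 : J.det ≠ 0) (hJρ : ∀ σ, (ρ σ).transpose * J * ρ σ = J)
    {ℓ : ℕ} [Fact ℓ.Prime] {d : ℕ}
    (π : (Qbar ≃ₐ[K] Qbar) →* Matrix (Fin d) (Fin d) (PadicAlgCl ℓ))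
    (hπ : CountsPoints n A B π) : NoTateClasses π := by
  classical
  intro H hH W₁ W₂ hW hT
  refine Pool.Agent.SD.main A B hA hB hD hN ρ hρ (es_traces hρt) J hJ hJ0 hJρ (Pool.Agent.OS.mrep π)
    ?_ H hH W₁ W₂ hW hT
  have h1 : (fun σ => LinearMap.trace (PadicAlgCl ℓ) _ (Pool.Agent.OS.mrep π σ)) =
      fun σ => (π σ).trace := by
    funext σ
    exact Matrix.trace_toLin'_eq (π σ)
  rw [h1]
  exact es_traces hπ

end Pool.Agent.EllipticSurface
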